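import Mathlib

namespace Pool.Agent.H.MP_66ce2c_al

open Matrix in
/-- nonzero integer vectors -/
abbrev V := {v : Fin 2 → ℤ // v ≠ 0}

abbrev SL2 := Matrix.SpecialLinearGroup (Fin 2) ℤ

open Matrix in
instance actV : MulAction SL2 V where
  smul g v := ⟨g.1 *ᵥ v.1, fun h => v.2 (by
    have h1 : (g⁻¹ * g).1 *ᵥ v.1 = 0 := by
      show ((g⁻¹).1 * g.1) *ᵥ v.1 = 0
      rw [← mulVec_mulVec, h, mulVec_zero]
    simpa using h1)⟩
  one_smul v := Subtype.ext (by
    show (1 : SL2).1 *ᵥ v.1 = v.1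
    simp)
  mul_smul g h v := Subtype.ext (by
    show (g.1 * h.1) *ᵥ v.1 = g.1 *ᵥ (h.1 *ᵥ v.1)
    rw [mulVec_mulVec])

open Matrix in
theorem smul_val (g : SL2) (v : V) : (g • v).1 = g.1 *ᵥ v.1 := rfl

def mA : SL2 := ⟨!![1, 2; 0, 1], by simp [Matrix.det_fin_two]⟩
def mB : SL2 := ⟨!![1, 0; 2, 1], by simp [Matrix.det_fin_two]⟩
def gens : Fin 2 → SL2 := ![mA, mB]

def rho : FreeGroup (Fin 2) →* SL2 := FreeGroup.lift gens

theorem vne (v : V) : v.1 0 ≠ 0 ∨ v.1 1 ≠ 0 := by
  by_contra h
  push Not at h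
  apply v.2
  ext i
  fin_cases i
  · exact h.1
  · exact h.2

def XX : Fin 2 → Set V :=
  ![{v | v.1 1 ≠ 0 ∧ 0 ≤ (v.1 0 - v.1 1) * v.1 1}, {v | 0 < (v.1 1 - v.1 0) * v.1 0}]
def YY : Fin 2 → Set V :=
  ![{v | v.1 1 = 0 ∨ (v.1 0 + v.1 1) * v.1 1 < 0}, {v | (v.1 0 + v.1 1) * v.1 0 ≤ 0}]

theorem mA_inv : (mA⁻¹).1 = !![1, -2; 0, 1] := by
  simp [mA, Matrix.SpecialLinearGroup.coe_inv, Matrix.adjugate_fin_two]
theorem mB_inv : (mB⁻¹).1 = !![1, 0; -2, 1] := by
  simp [mB, Matrix.SpecialLinearGroup.coe_inv, Matrix.adjugate_fin_two]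

theorem rho_inj : Function.Injective rho := by
  apply FreeGroup.injective_lift_of_ping_pong gens XX YY
  · intro i
    fin_cases i
    · exact ⟨⟨![1, 1], by simp⟩, by simp [XX]⟩
    · exact ⟨⟨![1, 2], by simp⟩, by simp [XX]⟩
  · intro i j hij
    fin_cases i <;> fin_cases j <;> first | exact absurd rfl hij | skip
    all_goals
      simp only [Function.onFun, XX, Set.disjoint_left]
      intro v h1 h2
      simp at h1 h2
      rcases lt_trichotomy (v.1 0) 0 with h | h | h <;>
        rcases lt_trichotomy (v.1 1) 0 with h' | h' | h' <;> nlinarith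
  · intro i j hij
    fin_cases i <;> fin_cases j <;> first | exact absurd rfl hij | skip
    all_goals
      simp only [Function.onFun, YY, Set.disjoint_left]
      intro v h1 h2
      have := vne v
      simp only [Fin.zero_eta, Fin.mk_one, Matrix.cons_val_zero, Matrix.cons_val_one,
        Set.mem_ofPred_eq] at h1 h2
      first
        | (rcases h1 with h1 | h1
           · rw [h1] at h2 this
             simp at this
             have := mul_self_pos.mpr this
             nlinarith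
           · nlinarith [mul_self_nonneg (v.1 0 + v.1 1)])
        | (rcases h2 with h2 | h2
           · rw [h2] at h1 this
             simp at this
             have := mul_self_pos.mpr this
             nlinarith
           · nlinarith [mul_self_nonneg (v.1 0 + v.1 1)])
  · intro i j
    fin_cases i <;> fin_cases j
    all_goals
      simp only [XX, YY, Set.disjoint_left]
      intro v h1 h2
      simp only [Fin.zero_eta, Fin.mk_one, Matrix.cons_val_zero, Matrix.cons_val_one,
        Set.mem_ofPred_eq] at h1 h2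
    · rcases h2 with h2 | h2
      · exact h1.1 h2
      · nlinarith [mul_self_nonneg (v.1 1), h1.2]
    · have := mul_self_pos.mpr h1.1
      have h3 := h1.2
      rcases lt_trichotomy (v.1 0) 0 with h | h | h <;>
        rcases lt_trichotomy (v.1 1) 0 with h' | h' | h' <;> nlinarith
    · rcases h2 with h2 | h2
      · rw [h2] at h1
        nlinarith [mul_self_nonneg (v.1 0)]
      · nlinarith [mul_self_nonneg (v.1 0), mul_self_nonneg (v.1 1)]
    · nlinarith [mul_self_nonneg (v.1 0)]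
  · intro i
    fin_cases i
    · rintro _ ⟨v, hv, rfl⟩
      simp only [XX, YY, Fin.zero_eta, Matrix.cons_val_zero, Set.mem_compl_iff,
        Set.mem_ofPred_eq, not_or, not_lt, gens, smul_val, mA] at hv ⊢
      simp [Matrix.mulVec, dotProduct, Fin.sum_univ_two]
      exact ⟨hv.1, by nlinarith [hv.2]⟩
    · rintro _ ⟨v, hv, rfl⟩
      simp only [XX, YY, Fin.mk_one, Matrix.cons_val_one, Matrix.cons_val_zero, Set.mem_compl_iff,
        Set.mem_ofPred_eq, not_le, gens, smul_val, mB] at hv ⊢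
      simp [Matrix.mulVec, dotProduct, Fin.sum_univ_two]
      nlinarith
  · intro i
    fin_cases i
    · rintro _ ⟨v, hv, rfl⟩
      simp only [XX, YY, Fin.zero_eta, Matrix.cons_val_zero, Set.mem_compl_iff, Pi.inv_apply,
        Set.mem_ofPred_eq, not_and, not_le, gens, smul_val, mA_inv] at hv ⊢
      simp [Matrix.mulVec, dotProduct, Fin.sum_univ_two]
      by_cases h : v.1 1 = 0
      · exact Or.inl h
      · right
        nlinarith [hv h]
    · rintro _ ⟨v, hv, rfl⟩
      simp only [XX, YY, Fin.mk_one, Matrix.cons_val_one, Matrix.cons_val_zero, Set.mem_compl_iff,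
        Pi.inv_apply, Set.mem_ofPred_eq, not_lt, gens, smul_val, mB_inv] at hv ⊢
      simp [Matrix.mulVec, dotProduct, Fin.sum_univ_two]
      nlinarith

theorem rho_pm (g : FreeGroup (Fin 2)) (e : ℤ) (he : e = 1 ∨ e = -1)
    (h : (rho g).1 = e • (1 : Matrix (Fin 2) (Fin 2) ℤ)) : g = 1 := by
  have h2 : rho (g ^ 2) = rho 1 := by
    apply Subtype.ext
    rw [map_pow, map_one, pow_two, Matrix.SpecialLinearGroup.coe_mul, h]
    rcases he with rfl | rfl <;> simp
  have h3 := rho_inj h2
  exact (pow_eq_one_iff_left (by norm_num)).mp h3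

abbrev F2 := FreeGroup (Fin 2)

def w : F2 := FreeGroup.of 0 ^ 3 * FreeGroup.of 1 ^ 3

lemma rho_w : (rho w).1 = !![37, 6; 6, 1] := by
  simp [w, rho, gens, mA, mB, pow_succ]

lemma rho_winv : (rho w⁻¹).1 = !![1, -6; -6, 37] := by
  rw [map_inv, Matrix.SpecialLinearGroup.coe_inv, rho_w]
  simp [Matrix.adjugate_fin_two]

def pell : Pell.Solution₁ 10 →* SL2 :=
  MonoidHom.mk' (fun a => ⟨!![a.x + 3 * a.y, a.y; a.y, a.x - 3 * a.y], by
    rw [Matrix.det_fin_two_of]; linear_combination a.prop⟩) fun a b => by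
    apply Subtype.ext
    rw [Matrix.SpecialLinearGroup.coe_mul]
    ext i j
    fin_cases i <;> fin_cases j <;> simp [Matrix.mul_apply, Fin.sum_univ_two] <;> ring

def a1 : Pell.Solution₁ 10 := Pell.Solution₁.mk 19 6 (by norm_num)

lemma a1_fund : Pell.IsFundamental a1 := by
  refine ⟨by simp [a1], by simp [a1], fun {b} hb => ?_⟩
  by_contra h
  simp only [a1, Pell.Solution₁.x_mk, not_le] at h
  have := b.prop
  generalize b.x = x at *
  generalize b.y = y at *
  have h1 : y ≤ 6 := by nlinarith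
  have h2 : -6 ≤ y := by nlinarith
  interval_cases x <;> interval_cases y <;> omega

lemma cent (g : F2) (h1 : (rho g).1 0 1 = (rho g).1 1 0)
    (h2 : (rho g).1 0 0 - (rho g).1 1 1 = 6 * (rho g).1 1 0) : g ∈ Subgroup.zpowers w := by
  have hd := (rho g).2
  rw [Matrix.det_fin_two] at hd
  let a : Pell.Solution₁ 10 := Pell.Solution₁.mk ((rho g).1 0 0 - 3 * (rho g).1 1 0)
    ((rho g).1 1 0) (by rw [h1] at hd; linear_combination hd + (rho g).1 0 0 * h2)
  have e : pell a = rho g := Subtype.ext (by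
    ext i j
    fin_cases i <;> fin_cases j <;> simp [pell, a, h1]
    linarith)
  have e1 : pell a1 = rho w := Subtype.ext (by rw [rho_w]; simp [pell, a1])
  obtain ⟨n, h | h⟩ := a1_fund.eq_zpow_or_neg_zpow a
  · exact ⟨n, rho_inj (by simp only [map_zpow]; rw [← e, h, map_zpow, e1])⟩
  · have : g * (w ^ n)⁻¹ = 1 := rho_pm _ (-1) (Or.inr rfl) (by
      have : rho (g * (w ^ n)⁻¹) = pell (-1) := by
        rw [map_mul, map_inv, map_zpow, ← e, ← e1, h, ← map_zpow, ← map_inv, ← map_mul]
        simp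
      rw [this]
      ext i j
      fin_cases i <;> fin_cases j <;> simp [pell])
    exact ⟨n, (mul_inv_eq_one.1 this).symm⟩

noncomputable def mu : ℝ := 3 + √10

lemma mu_sq : mu ^ 2 = 6 * mu + 1 := by
  have := Real.sq_sqrt (show (0 : ℝ) ≤ 10 by norm_num)
  unfold mu; linear_combination this

lemma mu_pos : 0 < mu := by unfold mu; positivity

lemma mu_irr (p q : ℤ) (h : p * mu + q = 0) : p = 0 ∧ q = 0 := by
  have hi : Irrational mu := by
    have : Irrational √((10 : ℕ) : ℝ) := by
      rw [irrational_sqrt_natCast_iff]; norm_num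
    simpa [mu] using this.natCast_add 3
  by_cases hp : p = 0
  · subst hp; simpa using h
  · exfalso
    have := (hi.intCast_mul hp).add_intCast q
    rw [h] at this
    exact this ⟨0, by simp⟩

noncomputable def sg : F2 →* Matrix (Fin 2) (Fin 2) ℝ where
  toFun g := (mu ^ 2 + 1)⁻¹ • !![mu, 1; -1, mu] * (rho g).1.map (Int.castRingHom ℝ) *
    !![mu, -1; 1, mu]
  map_one' := by
    have := mu_pos
    ext i j
    fin_cases i <;> fin_cases j <;> simp [Matrix.mul_apply, Fin.sum_univ_two] <;> field_simp <;>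
      ring
  map_mul' g h := by
    have := mu_pos
    have e : !![mu, -1; 1, mu] * ((mu ^ 2 + 1)⁻¹ • !![mu, 1; -1, mu]) = 1 := by
      ext i j
      fin_cases i <;> fin_cases j <;> simp [Matrix.mul_apply, Fin.sum_univ_two] <;>
        field_simp <;> ring
    rw [map_mul, Matrix.SpecialLinearGroup.coe_mul, Matrix.map_mul]
    simp only [Matrix.mul_assoc]
    rw [← Matrix.mul_assoc !![mu, -1; 1, mu], e, Matrix.one_mul]

noncomputable def lam : ℝ := 6 * mu + 1

lemma lam_gt : 1 < lam := by have := mu_pos; unfold lam; linarith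

lemma lam_inv : lam⁻¹ = 37 - 6 * mu :=
  inv_eq_of_mul_eq_one_right (by unfold lam; linear_combination (-36) * mu_sq)

lemma sg_apply (g : F2) : sg g = (mu ^ 2 + 1)⁻¹ • !![mu, 1; -1, mu] *
    (rho g).1.map (Int.castRingHom ℝ) * !![mu, -1; 1, mu] := rfl

lemma sg_w : sg w = Matrix.diagonal ![lam, lam⁻¹] := by
  have := mu_pos
  have h := mu_sq
  rw [sg_apply, rho_w, lam_inv]
  ext i j
  fin_cases i <;> fin_cases j <;>
    simp [Matrix.mul_apply, Fin.sum_univ_two, lam, Matrix.vecMul, dotProduct] <;> field_simp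
  · linear_combination (-6 * mu) * h
  · linear_combination 6 * h
  · linear_combination 6 * h
  · linear_combination (6 * mu) * h

lemma sg_winv : sg w⁻¹ = Matrix.diagonal ![lam⁻¹, lam] := by
  have h : sg w⁻¹ * sg w = 1 := by rw [← map_mul]; simp
  have := lam_gt
  rw [← Matrix.inv_eq_left_inv h, sg_w]
  refine Matrix.inv_eq_left_inv ?_
  rw [Matrix.diagonal_mul_diagonal, ← Matrix.diagonal_one]
  congr 1
  ext i
  fin_cases i <;> simp <;> field_simp

lemma sg_ne (g : F2) (hg : g ∉ Subgroup.zpowers w) : sg g 0 1 ≠ 0 ∧ sg g 1 0 ≠ 0 := by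
  have := mu_pos
  have h := mu_sq
  constructor
  · intro e
    simp [sg_apply, Matrix.mul_apply, Fin.sum_univ_two, Matrix.vecMul, dotProduct] at e
    field_simp at e
    have := mu_irr (6 * (rho g).1 0 1 - (rho g).1 0 0 + (rho g).1 1 1)
      ((rho g).1 0 1 - (rho g).1 1 0) (by
        push_cast; linear_combination e - ((rho g).1 0 1 : ℝ) * h)
    exact hg (cent g (by omega) (by omega))
  · intro e
    simp [sg_apply, Matrix.mul_apply, Fin.sum_univ_two, Matrix.vecMul, dotProduct] at e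
    field_simp at e
    have := mu_irr (6 * (rho g).1 1 0 - (rho g).1 0 0 + (rho g).1 1 1)
      ((rho g).1 1 0 - (rho g).1 0 1) (by
        push_cast; linear_combination e - ((rho g).1 1 0 : ℝ) * h)
    exact hg (cent g (by omega) (by omega))

def om (k : ℕ) : Bool → F2
  | true => w ^ k
  | false => w⁻¹ ^ (k + 1)

def mm (k : ℕ) : Bool → List F2 → F2
  | _, [] => 1
  | ε, g :: L => om k ε * g * mm k (!ε) L

def Red : List F2 → Prop
  | [] => True
  | [_] => True
  | g :: g' :: L => g ∉ Subgroup.zpowers w ∧ Red (g' :: L)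

open Filter Topology Matrix in
lemma big0 : ∀ (L : List F2) (g : F2), Red (g :: L) → ∃ u : Fin 2 → ℝ, ∀ ε, ∃ c ≠ 0,
    Tendsto (fun k => (lam⁻¹ ^ k) ^ (L.length + 1) • sg (mm k ε (g :: L)) *ᵥ u) atTop
      (𝓝 (if ε then ![c, 0] else ![0, c])) := by
  have hl := lam_gt
  have t0 : Tendsto (fun k : ℕ => lam⁻¹ ^ k) atTop (𝓝 0) :=
    tendsto_pow_atTop_nhds_zero_of_lt_one (by positivity) (inv_lt_one_of_one_lt₀ hl)
  have key : ∀ (ε : Bool) (x : ℕ → Fin 2 → ℝ) (y : Fin 2 → ℝ), Tendsto x atTop (𝓝 y) →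
      Tendsto (fun k => lam⁻¹ ^ k • sg (om k ε) *ᵥ x k) atTop
        (𝓝 (if ε then ![y 0, 0] else ![0, lam * y 1])) := by
    intro ε x y h
    have h0 := tendsto_pi_nhds.1 h 0
    have h1 := tendsto_pi_nhds.1 h 1
    have e : ∀ k : ℕ, lam⁻¹ ^ k * lam ^ k = 1 := fun k => by
      rw [← mul_pow, inv_mul_cancel₀ (by positivity), one_pow]
    rw [tendsto_pi_nhds]
    intro i
    cases ε <;> fin_cases i <;>
      simp only [om, map_pow, sg_w, sg_winv, diagonal_pow, Pi.smul_apply, mulVec_diagonal,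
        Pi.pow_apply, smul_eq_mul, Fin.zero_eta, Fin.mk_one, cons_val_zero, cons_val_one,
        if_true, Bool.false_eq_true, if_false]
    · simpa using t0.mul ((t0.comp (tendsto_add_atTop_nat 1)).mul h0)
    · simpa only [pow_succ, ← mul_assoc, e, one_mul] using h1.const_mul lam
    · simpa only [← mul_assoc, e, one_mul] using h0
    · simpa using t0.mul (t0.mul h1)
  intro L
  induction L with
  | nil =>
    intro g _
    refine ⟨sg g⁻¹ *ᵥ ![1, 1], fun ε => ?_⟩
    have := key ε (fun _ => ![1, 1]) _ tendsto_const_nhds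
    simp only [mm, mul_one, List.length_nil, zero_add, pow_one, mulVec_mulVec, ← map_mul,
      mul_inv_cancel_right]
    cases ε
    · exact ⟨lam * 1, by positivity, this⟩
    · exact ⟨1, one_ne_zero, this⟩
  | cons g' L ih =>
    intro g hr
    obtain ⟨u, hu⟩ := ih g' hr.2
    refine ⟨u, fun ε => ?_⟩
    obtain ⟨c, hc, h⟩ := hu (!ε)
    have := key ε _ _ (((continuous_const.matrix_mulVec continuous_id).tendsto _).comp h
      (g := fun x => sg g *ᵥ x))
    have e : ∀ k, (lam⁻¹ ^ k) ^ ((g' :: L).length + 1) • sg (mm k ε (g :: g' :: L)) *ᵥ u =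
        lam⁻¹ ^ k • sg (om k ε) *ᵥ (sg g *ᵥ ((lam⁻¹ ^ k) ^ (L.length + 1) •
          sg (mm k (!ε) (g' :: L)) *ᵥ u)) := fun k => by
      rw [mm, map_mul, map_mul, mulVec_smul, mulVec_smul, smul_smul, mulVec_mulVec, mulVec_mulVec,
        List.length_cons, ← pow_succ']
    simp only [e]
    have hn := sg_ne g hr.1
    cases ε
    · exact ⟨_, by simp [mulVec, dotProduct, hn.2, hc, (zero_lt_one.trans hl).ne'], this⟩
    · exact ⟨_, by simp [mulVec, dotProduct, hn.1, hc], this⟩

open Filter Topology Matrix in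
lemma big (g0 g : F2) (L : List F2) (h : Red (g :: L)) : ∃ k, g0 * mm k true (g :: L) ≠ 1 := by
  by_contra hc
  push Not at hc
  obtain ⟨u, hu⟩ := big0 L g h
  obtain ⟨c, hc0, h1⟩ := hu true
  have hl := lam_gt
  have t0 : Tendsto (fun k : ℕ => lam⁻¹ ^ k) atTop (𝓝 0) :=
    tendsto_pow_atTop_nhds_zero_of_lt_one (by positivity) (inv_lt_one_of_one_lt₀ hl)
  simp only [fun k => eq_inv_of_mul_eq_one_right (hc k)] at h1
  have h2 := tendsto_nhds_unique h1 ((t0.pow (L.length + 1)).smul_const _)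
  simpa [hc0] using congrFun h2 0

end Pool.Agent.H.MP_66ce2c_al
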