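import Mathlib
import Pool.Agent.H.MP_66ce2c_al.A

namespace Pool.Agent.H.MP_66ce2c_al
open FreeGroup (of lift lift_apply_of)
open scoped commutatorElement

section stab
variable {G W : Type} [Group G] [AddCommGroup W]

def KK (ρ : G →* (W ≃ₗ[ℤ] W)) (F : ℕ → AddSubgroup W) (h0 : F 0 = ⊤) (hF : Antitone F) (n : ℕ) :
    Subgroup G where
  carrier := {g | ∀ i, ∀ z ∈ F i, ρ g z - z ∈ F (i + n + 1)}
  one_mem' := fun i z _ => by simp
  mul_mem' := fun {a b} ha hb i z hz => by
    have h1 : ρ b z ∈ F i := by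
      simpa using add_mem (hF (by omega) (hb i z hz)) hz
    simpa using add_mem (ha i _ h1) (hb i z hz)
  inv_mem' := fun {a} ha i z hz => by
    have e : ρ a (ρ a⁻¹ z) = z := by rw [← LinearEquiv.mul_apply, ← map_mul]; simp
    have h1 : ∀ j ≤ i, ρ a⁻¹ z ∈ F j := fun j => by
      induction j with
      | zero => intro _; rw [h0]; trivial
      | succ j ih =>
        intro hj
        have := ha j _ (ih (by omega))
        rw [e] at this
        simpa using sub_mem (hF hj hz) (hF (show j + 1 ≤ j + n + 1 by omega) this)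
    have := ha i _ (h1 i le_rfl)
    rw [e] at this
    simpa using neg_mem this

lemma stab (ρ : G →* (W ≃ₗ[ℤ] W)) (F : ℕ → AddSubgroup W) (h0 : F 0 = ⊤) (hF : Antitone F)
    (h : ∀ g, g ∈ KK ρ F h0 hF 0) (n : ℕ) :
    (⊤ : Subgroup G).lowerCentralSeries n ≤ KK ρ F h0 hF n := by
  induction n with
  | zero => exact fun g _ => h g
  | succ n ih =>
    rw [Subgroup.lowerCentralSeries_succ, Subgroup.commutator_le]
    intro x hx y _ i z hz
    have inv : ∀ g i, ∀ z ∈ F i, ρ g z ∈ F i := fun g i z hz => by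
      simpa using add_mem (hF (by omega) (h g i z hz)) hz
    have hz' := inv x⁻¹ i _ (inv y⁻¹ i z hz)
    have e : z = ρ y (ρ x (ρ x⁻¹ (ρ y⁻¹ z))) := by
      simp only [← LinearEquiv.mul_apply, ← map_mul]; simp
    have e2 : ρ ⁅x, y⁆ z = ρ x (ρ y (ρ x⁻¹ (ρ y⁻¹ z))) := by
      simp only [← LinearEquiv.mul_apply, ← map_mul, commutatorElement_def, mul_assoc]
    generalize ρ x⁻¹ (ρ y⁻¹ z) = z' at *
    have a := ih hx _ _ (h y i z' hz')
    have b := h y _ _ (ih hx i z' hz')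
    have c := sub_mem (hF (show i + (n + 1) + 1 ≤ _ by omega) a)
      (hF (show i + (n + 1) + 1 ≤ _ by omega) b)
    rw [e2, e]
    simp only [map_sub] at c
    convert c using 1
    abel

end stab

abbrev F3 := FreeGroup (Fin 3)

def rel : F3 := of 0 ^ 2 * of 1 ^ 3 * of 2 ^ 3

abbrev P := PresentedGroup ({rel} : Set F3)

def pa : P := PresentedGroup.of 0
def io : F2 →* P := lift ![PresentedGroup.of 1, PresentedGroup.of 2]

lemma rel_one : (PresentedGroup.of 0 : P) ^ 2 * PresentedGroup.of 1 ^ 3 * PresentedGroup.of 2 ^ 3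
    = 1 := PresentedGroup.one_of_mem (rels := {rel}) rfl

lemma pa_sq : pa * pa = io w⁻¹ := by
  rw [map_inv, eq_inv_iff_mul_eq_one, ← rel_one]
  simp [io, w, pa, pow_two, mul_assoc]

def ev (L : List F2) : P := (L.map fun g => pa * io g).prod

lemma nf (p : P) : ∃ g L, Red L ∧ p = io g * ev L := by
  have hc : Commute pa (io w) := by
    have : io w = (pa * pa)⁻¹ := by rw [pa_sq]; simp
    rw [this]; exact ((Commute.refl pa).mul_right (Commute.refl pa)).inv_right
  let S : Set P := {p | ∃ g L, Red L ∧ p = io g * ev L}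
  have h1 : ∀ g, ∀ p ∈ S, io g * p ∈ S := by
    rintro g _ ⟨g0, L, h, rfl⟩
    exact ⟨g * g0, L, h, by rw [map_mul, mul_assoc]⟩
  have h2 : ∀ p ∈ S, pa * p ∈ S := by
    rintro _ ⟨g0, L, h, rfl⟩
    rcases L with _ | ⟨g1, L⟩
    · exact ⟨1, [g0], trivial, by simp [ev]⟩
    by_cases hg : g0 ∈ Subgroup.zpowers w
    · obtain ⟨j, rfl⟩ := hg
      refine ⟨w ^ j * w⁻¹ * g1, L, ?_, ?_⟩
      · cases L
        exacts [trivial, h.2]
      · simp only [ev, List.map_cons, List.prod_cons, map_mul, ← pa_sq, map_zpow, ← mul_assoc]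
        rw [(hc.zpow_right j).eq]
    · exact ⟨1, g0 :: g1 :: L, ⟨hg, h⟩, by simp [ev, mul_assoc]⟩
  have h3 : ∀ p ∈ S, pa⁻¹ * p ∈ S := fun p hp => by
    have : pa⁻¹ = io w * pa := by
      rw [inv_eq_iff_mul_eq_one, ← mul_assoc, hc.eq, mul_assoc, pa_sq]; simp
    rw [this, mul_assoc]; exact h1 _ _ (h2 p hp)
  have key : ∀ u : F3, ∀ p ∈ S, PresentedGroup.mk _ u * p ∈ S := by
    intro u
    induction u using FreeGroup.induction_on with
    | C1 => simp
    | of i =>
      fin_cases i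
      exacts [h2, h1 (of 0), h1 (of 1)]
    | inv_of i _ =>
      fin_cases i
      exacts [h3, h1 (of 0)⁻¹, h1 (of 1)⁻¹]
    | mul a b ha hb => intro p hp; rw [map_mul, mul_assoc]; exact ha _ (hb p hp)
  obtain ⟨u, rfl⟩ := PresentedGroup.mk_surjective _ p
  have := key u 1 ⟨1, [], trivial, by simp [ev]⟩
  rwa [mul_one] at this

abbrev Vv := Fin 2 → ℤ

noncomputable def act : F2 →* (Vv ≃ₗ[ℤ] Vv) := Matrix.SpecialLinearGroup.toLin'.comp rho

lemma act_inj (g : F2) (h : ∀ u, act g u = u) : g = 1 := by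
  refine rho_inj (Matrix.SpecialLinearGroup.toLin'_injective ?_)
  rw [map_one, map_one]
  exact LinearEquiv.ext h

noncomputable def dd : F2 →* ((Vv × Vv) ≃ₗ[ℤ] (Vv × Vv)) :=
  MonoidHom.mk' (fun g => (act g).prodCongr (act g)) fun a b => by ext <;> simp

noncomputable def AA (k : ℕ) : (Vv × Vv) ≃ₗ[ℤ] (Vv × Vv) :=
  (act (om k true)).prodCongr (act (om k false)) * LinearEquiv.prodComm ℤ Vv Vv

lemma AA_apply (k : ℕ) (x y : Vv) : AA k (x, y) = (act (om k true) y, act (om k false) x) := rfl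

noncomputable def rk (k : ℕ) : P →* ((Vv × Vv) ≃ₗ[ℤ] (Vv × Vv)) :=
  PresentedGroup.toGroup (f := ![AA k, dd (of 0), dd (of 1)]) (by
    rintro _ rfl
    have e : AA k * AA k = dd w⁻¹ := LinearEquiv.ext fun ⟨x, y⟩ => by
      have a : om k true * om k false = w⁻¹ := by simp only [om]; group
      have b : om k false * om k true = w⁻¹ := by simp only [om]; group
      rw [LinearEquiv.mul_apply, AA_apply, AA_apply, ← LinearEquiv.mul_apply,
        ← LinearEquiv.mul_apply, ← map_mul, ← map_mul, a, b]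
      rfl
    simp only [rel, map_mul, map_pow, lift_apply_of, pow_two, Matrix.cons_val_zero,
      Matrix.cons_val_one, Matrix.cons_val, e]
    rw [← map_pow, ← map_pow, ← map_mul, ← map_mul, mul_assoc, ← w]; simp)

lemma rk_a (k : ℕ) : rk k pa = AA k := PresentedGroup.toGroup.of _

lemma rk_io (k : ℕ) (g : F2) : rk k (io g) = dd g := by
  refine DFunLike.congr_fun (FreeGroup.ext_hom ((rk k).comp io) dd fun i => ?_) g
  fin_cases i <;> simp [io, rk]

lemma rk_ev (k : ℕ) (u : Vv) (L : List F2) :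
    rk k (ev L) (u, u) = (act (mm k true L) u, act (mm k false L) u) := by
  induction L with
  | nil => simp [ev, mm]
  | cons g L ih =>
    have : ev (g :: L) = pa * io g * ev L := by simp [ev]
    rw [this, map_mul, map_mul, LinearEquiv.mul_apply, LinearEquiv.mul_apply, ih, rk_a, rk_io]
    simp only [mm, map_mul]
    rfl

lemma sep (p : P) (h : ∀ k z, rk k p z = z) : p = 1 := by
  obtain ⟨g, L, hL, rfl⟩ := nf p
  have key : ∀ k, g * mm k true L = 1 := fun k => act_inj _ fun u => by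
    have := congrArg Prod.fst (h k (u, u))
    rw [map_mul, LinearEquiv.mul_apply, rk_ev, rk_io] at this
    rw [map_mul]; exact this
  rcases L with _ | ⟨g1, L⟩
  · have : g = 1 := by simpa [mm] using key 0
    simp [this, ev]
  · obtain ⟨k, hk⟩ := big g g1 L hL
    exact absurd (key k) hk

def F1 (n : ℕ) : AddSubgroup Vv := AddSubgroup.pi Set.univ fun _ => AddSubgroup.zmultiples (2 ^ n)

lemma mem_F1 {n : ℕ} {x : Vv} : x ∈ F1 n ↔ ∀ i, 2 ^ n ∣ x i := by
  simp [F1, AddSubgroup.mem_pi, Int.mem_zmultiples_iff]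

lemma F1_anti : Antitone F1 := fun _ _ h _ hx =>
  mem_F1.2 fun i => (pow_dvd_pow 2 h).trans (mem_F1.1 hx i)

lemma F1_zero : F1 0 = ⊤ := by ext x; simp [mem_F1]

lemma act_F1 (g : F2) : g ∈ KK act F1 F1_zero F1_anti 0 := by
  have : (KK act F1 F1_zero F1_anti 0) = ⊤ := by
    rw [eq_top_iff, ← FreeGroup.closure_range_of, Subgroup.closure_le]
    rintro _ ⟨j, rfl⟩ n z hz
    rw [mem_F1] at hz ⊢
    intro i
    fin_cases j <;> fin_cases i <;>
      simp [act, rho, gens, mA, mB, Matrix.SpecialLinearGroup.toLin'_apply,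
        dotProduct, pow_succ', mul_dvd_mul_iff_left, hz]
  rw [this]; trivial

def FW (n : ℕ) : AddSubgroup (Vv × Vv) :=
  (F1 (n / 2)).comap (AddMonoidHom.fst _ _) ⊓
    (F1 ((n + 1) / 2)).comap (AddMonoidHom.fst _ _ - AddMonoidHom.snd _ _)

lemma mem_FW {n : ℕ} {x y : Vv} : (x, y) ∈ FW n ↔ x ∈ F1 (n / 2) ∧ x - y ∈ F1 ((n + 1) / 2) :=
  Iff.rfl

lemma FW_anti : Antitone FW := fun _ _ h _ hx =>
  ⟨F1_anti (by omega) hx.1, F1_anti (by omega) hx.2⟩

lemma FW_zero : FW 0 = ⊤ := by ext ⟨x, y⟩; simp [mem_FW, F1_zero]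

lemma rk_FW (k : ℕ) (p : P) : p ∈ KK (rk k) FW FW_zero FW_anti 0 := by
  have hy : ∀ {n x y}, x ∈ F1 (n / 2) ∧ x - y ∈ F1 ((n + 1) / 2) → y ∈ F1 (n / 2) :=
    fun {n x y} h => by
    simpa using sub_mem h.1 (F1_anti (show n / 2 ≤ (n + 1) / 2 by omega) h.2)
  have h1 : ∀ g, io g ∈ KK (rk k) FW FW_zero FW_anti 0 := by
    rintro g n ⟨x, y⟩ h
    rw [mem_FW] at h
    have a := act_F1 g _ _ h.1
    have b := act_F1 g _ _ (hy h)
    rw [rk_io]
    exact ⟨F1_anti (by omega) a, F1_anti (by omega) (sub_mem a b)⟩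
  have : KK (rk k) FW FW_zero FW_anti 0 = ⊤ := by
    rw [eq_top_iff, ← PresentedGroup.closure_range_of, Subgroup.closure_le]
    rintro _ ⟨j, rfl⟩
    fin_cases j
    · rintro n ⟨x, y⟩ h
      rw [mem_FW] at h
      have a := act_F1 (om k true) _ _ (hy h)
      have b := act_F1 (om k false) _ _ h.1
      have c : (2 : ℤ) • (x - y) ∈ F1 (n / 2 + 1) := mem_F1.2 fun i => by
        rw [pow_succ', Pi.smul_apply, smul_eq_mul]
        exact mul_dvd_mul_left _ (mem_F1.1 (sub_mem h.1 (hy h)) i)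
      change rk k pa _ - _ ∈ _
      rw [rk_a, AA_apply, Prod.mk_sub_mk, mem_FW]
      constructor
      · convert sub_mem (F1_anti (show (n + 0 + 1) / 2 ≤ _ by omega) a) h.2 using 1
        abel
      · convert F1_anti (show (n + 0 + 1 + 1) / 2 ≤ _ by omega) (sub_mem (sub_mem a b) c) using 1
        rw [two_smul]; abel
    · simpa [io] using h1 (of 0)
    · simpa [io] using h1 (of 1)
  rw [this]; trivial

theorem resnil : ⨅ n, (⊤ : Subgroup P).lowerCentralSeries n = ⊥ := by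
  rw [eq_bot_iff]
  intro p hp
  rw [Subgroup.mem_iInf] at hp
  refine sep p fun k z => ?_
  have h := fun n => stab (rk k) FW FW_zero FW_anti (rk_FW k) n (hp n) 0 z (by rw [FW_zero]; trivial)
  have key : ∀ x : Vv, (∀ n, x ∈ F1 n) → x = 0 := fun x hx => funext fun i =>
    Int.eq_zero_of_dvd_of_natAbs_lt_natAbs (mem_F1.1 (hx (x i).natAbs) i)
      (by simpa [Int.natAbs_pow] using Nat.lt_two_pow_self)
  have a := key _ fun n => F1_anti (show n ≤ _ by omega) (h (2 * n)).1
  have b := key _ fun n => F1_anti (show n ≤ _ by omega) (h (2 * n)).2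
  simp only [AddMonoidHom.sub_apply, AddMonoidHom.coe_fst, AddMonoidHom.coe_snd] at a b
  rw [a, zero_sub, neg_eq_zero] at b
  exact sub_eq_zero.1 (Prod.ext a b)

end Pool.Agent.H.MP_66ce2c_al
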