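import Mathlib
import Pool.Agent.H.MP_66ce2c_al.B

namespace Pool.Agent.H.MP_66ce2c_al
open FreeGroup (of lift lift_apply_of)
open scoped commutatorElement

abbrev ga (H : Type) [Group H] (n : ℕ) : Subgroup H := (⊤ : Subgroup H).lowerCentralSeries n

lemma contr {H α : Type} [Group H] (n : ℕ) (f g : FreeGroup α →* H)
    (h : ∀ i, (f (of i))⁻¹ * g (of i) ∈ ga H n) (κ : FreeGroup α) (hκ : κ ∈ commutator _) :
    (f κ)⁻¹ * g κ ∈ ga H (n + 1) := by
  have h1 : ∀ u, (f u)⁻¹ * g u ∈ ga H n := fun u => QuotientGroup.eq.1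
    (DFunLike.congr_fun (FreeGroup.ext_hom ((QuotientGroup.mk' (ga H n)).comp f)
      ((QuotientGroup.mk' (ga H n)).comp g) fun i => QuotientGroup.eq.2 (h i)) u)
  let π := QuotientGroup.mk' (ga H (n + 1))
  have h2 : ∀ c ∈ ga H n, ∀ x, Commute (π c) x := fun c hc x => by
    obtain ⟨y, rfl⟩ := QuotientGroup.mk'_surjective _ x
    rw [← commutatorElement_eq_one_iff_commute, ← map_commutatorElement]
    exact (QuotientGroup.eq_one_iff _).2 (Subgroup.commutator_mem_commutator hc trivial)
  have : commutator (FreeGroup α) ≤ (π.comp f).eqLocus (π.comp g) := by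
    rw [commutator, Subgroup.commutator_le]
    intro u _ v _
    change π (f _) = π (g _)
    have a := h2 _ (h1 u)
    have b := h2 _ (h1 v)
    have e : ∀ u, π (g u) = π (f u) * π ((f u)⁻¹ * g u) := fun u => by
      rw [← map_mul, mul_inv_cancel_left]
    rw [map_commutatorElement, map_commutatorElement, map_commutatorElement,
      map_commutatorElement, e u, e v]
    generalize π ((f u)⁻¹ * g u) = c at *
    generalize π ((f v)⁻¹ * g v) = d at *
    generalize π (f u) = x
    generalize π (f v) = y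
    have k : ∀ (c : H ⧸ ga H (n + 1)), (∀ z, Commute c z) → ∀ x y, x * c * y * (x * c)⁻¹ = x * y * x⁻¹ :=
      fun c hc x y => by rw [mul_assoc x c, (hc y).eq]; group
    rw [commutatorElement_def, commutatorElement_def, k c a]
    calc _ = x * (y * x⁻¹ * y⁻¹) := by group
      _ = x * (y * d * x⁻¹ * (y * d)⁻¹) := by rw [k d b]
      _ = _ := by group
  exact QuotientGroup.eq.1 (this hκ)

def th : F3 →* F3 := lift ![of 1 * (of 2)⁻¹ * of 1 ^ 2, of 0, (of 0)⁻¹ * (of 1 ^ 2)⁻¹ * of 2]

def ka : F3 := (of 2)⁻¹ * th rel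

lemma ka_mem : ka ∈ commutator F3 := by
  rw [← Abelianization.ker_of, MonoidHom.mem_ker]
  simp only [ka, th, rel, map_mul, map_pow, map_inv, lift_apply_of, Matrix.cons_val_zero,
    Matrix.cons_val_one, Matrix.cons_val]
  generalize Abelianization.of (of 0 : F3) = x
  generalize Abelianization.of (of 1 : F3) = y
  generalize Abelianization.of (of 2 : F3) = z
  apply Additive.ofMul.injective
  simp only [ofMul_mul, ofMul_pow, ofMul_inv, ofMul_one]
  abel

def ff {H : Type} [Group H] (x y z : H) : H := (lift ![x, y, z] ka)⁻¹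

lemma ff_contr {H : Type} [Group H] (x y z z' : H) (n : ℕ) (h : z⁻¹ * z' ∈ ga H n) :
    (ff x y z)⁻¹ * ff x y z' ∈ ga H (n + 1) := by
  have := contr n (lift ![x, y, z]) (lift ![x, y, z']) (fun i => by
    fin_cases i <;> simp [h]) ka⁻¹ (inv_mem ka_mem)
  simpa [ff] using this

def zz : ℕ → F2
  | 0 => 1
  | n + 1 => ff (of 0) (of 1) (zz n)

lemma zz_mem (n : ℕ) : (zz n)⁻¹ * zz (n + 1) ∈ ga F2 n := by
  induction n with
  | zero => trivial
  | succ n ih => exact ff_contr _ _ _ _ n ih

def px : P := PresentedGroup.of 1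
def py : P := PresentedGroup.of 0 * PresentedGroup.of 1 * PresentedGroup.of 2
def pz : P := py ^ 2 * (PresentedGroup.of 1 * PresentedGroup.of 2)
def jj : F2 →* P := lift ![px, py]

lemma th_mk : (lift ![px, py, pz]).comp th = PresentedGroup.mk _ := by
  refine FreeGroup.ext_hom _ _ fun i => ?_
  fin_cases i <;> simp [th, px, pz]
  · change _ = PresentedGroup.of 0
    simp only [py]; group
  · rfl
  · change _ = PresentedGroup.of 2
    group

lemma pz_ff : ff px py pz = pz := by
  have := DFunLike.congr_fun th_mk rel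
  rw [PresentedGroup.one_of_mem (rels := {rel}) rfl, MonoidHom.comp_apply] at this
  simp [ff, ka, this]

lemma pz_mem (n : ℕ) : (jj (zz n))⁻¹ * pz ∈ ga P n := by
  induction n with
  | zero => trivial
  | succ n ih =>
    have := ff_contr px py _ _ n ih
    rw [pz_ff] at this
    convert this
    have e : jj.comp (lift ![of 0, of 1, zz n]) = lift ![px, py, jj (zz n)] :=
      FreeGroup.ext_hom _ _ fun i => by fin_cases i <;> simp [jj]
    rw [zz, ff, ff, map_inv, ← e]; rfl

theorem para (n : ℕ) : Nonempty (P ⧸ ga P n ≃* F2 ⧸ ga F2 n) := by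
  let π := QuotientGroup.mk' (ga F2 n)
  let φ : F3 →* F2 ⧸ ga F2 n := (π.comp (lift ![of 0, of 1, zz n])).comp th
  let β : P →* F2 ⧸ ga F2 n := PresentedGroup.toGroup (f := fun i => φ (of i)) (by
    rintro _ rfl
    have e : lift (fun i => φ (of i)) = φ := FreeGroup.ext_hom _ _ fun i => by simp
    have e2 : th rel = of 2 * ka := by simp [ka]
    rw [e]
    simp only [φ, MonoidHom.comp_apply, e2]
    refine (QuotientGroup.eq_one_iff _).2 ?_
    have := (inferInstance : (ga F2 n).Normal).conj_mem _ (inv_mem (zz_mem n)) (zz n)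
    simpa [zz, ff, mul_assoc] using this)
  have b1 : β.comp jj = π := FreeGroup.ext_hom _ _ fun i => by
    fin_cases i <;> simp [β, φ, jj, px, py, th]
    group
  have b2 : ∀ p : P, ∃ u, (jj u)⁻¹ * p ∈ ga P n := fun p => by
    obtain ⟨v, rfl⟩ := PresentedGroup.mk_surjective _ p
    rw [← th_mk, MonoidHom.comp_apply]
    have e : (QuotientGroup.mk' (ga P n)).comp (jj.comp (lift ![of 0, of 1, zz n])) =
        (QuotientGroup.mk' (ga P n)).comp (lift ![px, py, pz]) :=
      FreeGroup.ext_hom _ _ fun i => by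
        fin_cases i
        · simp [jj]
        · simp [jj]
        · simpa using QuotientGroup.eq.2 (pz_mem n)
    exact ⟨_, QuotientGroup.eq.1 (DFunLike.congr_fun e (th v))⟩
  have b3 : ∀ t ∈ ga P n, β t = 1 := fun t ht => by
    have h1 := Subgroup.lowerCentralSeries_mono n (le_top (a := Subgroup.map β ⊤))
      ((Subgroup.map_lowerCentralSeries ⊤ β n).le ⟨t, ht, rfl⟩)
    have h2 : Subgroup.map π ⊤ = ⊤ :=
      Subgroup.map_top_of_surjective _ (QuotientGroup.mk'_surjective _)
    rw [← h2] at h1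
    beta_reduce at h1
    rw [← Subgroup.map_lowerCentralSeries] at h1
    obtain ⟨u, hu, e⟩ := h1
    rw [← e]; exact (QuotientGroup.eq_one_iff _).2 hu
  have hk : β.ker = ga P n := by
    refine le_antisymm (fun p hp => ?_) b3
    obtain ⟨u, hu⟩ := b2 p
    have h1 := b3 _ hu
    rw [map_mul, MonoidHom.mem_ker.1 hp, mul_one, map_inv, inv_eq_one] at h1
    have h2 : u ∈ ga F2 n := (QuotientGroup.eq_one_iff _).1 ((DFunLike.congr_fun b1 u).symm.trans h1)
    have h3 := Subgroup.lowerCentralSeries_mono n (le_top (a := Subgroup.map jj ⊤))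
      ((Subgroup.map_lowerCentralSeries ⊤ jj n).le ⟨u, h2, rfl⟩)
    simpa using mul_mem h3 hu
  exact ⟨(QuotientGroup.quotientMulEquivOfEq hk.symm).trans
    (QuotientGroup.quotientKerEquivOfSurjective β fun x => by
      obtain ⟨u, rfl⟩ := QuotientGroup.mk'_surjective _ x
      exact ⟨jj u, DFunLike.congr_fun b1 u⟩)⟩

end Pool.Agent.H.MP_66ce2c_al
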