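import Mathlib
import Pool.Agent.H.MP_66ce2c_al.C

namespace Pool.Agent.H.MP_66ce2c_al
open FreeGroup (of lift lift_apply_of)
open DihedralGroup (r sr)

abbrev Q := DihedralGroup 3

def gq : Fin 3 → Q := ![sr 0, r 1, r 1]
def p0 : F3 →* Q := lift gq

@[simp] lemma p0_of (i : Fin 3) : p0 (of i) = gq i := lift_apply_of

section
variable {Y : Type} [AddCommGroup Y]

def Phi (ε : Q → Fin 3 → Y) : F3 →* Equiv.Perm (Q × Y) := lift fun i =>
  { toFun := fun p => (gq i * p.1, p.2 + ε p.1 i)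
    invFun := fun p => ((gq i)⁻¹ * p.1, p.2 - ε ((gq i)⁻¹ * p.1) i)
    left_inv := fun p => by simp
    right_inv := fun p => by simp }

def CC (ε : Q → Fin 3 → Y) (u : F3) (q : Q) : Y := (Phi ε u (q, 0)).2

lemma Phi_apply (ε : Q → Fin 3 → Y) (u : F3) (q : Q) (y : Y) :
    Phi ε u (q, y) = (p0 u * q, y + CC ε u q) := by
  have : ∀ q, ∃ k, ∀ y, Phi ε u (q, y) = (p0 u * q, y + k) := by
    induction u using FreeGroup.induction_on with
    | C1 => exact fun q => ⟨0, by simp⟩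
    | of i => exact fun q => ⟨ε q i, fun y => by simp [Phi]⟩
    | inv_of i _ =>
      exact fun q => ⟨-ε ((gq i)⁻¹ * q) i, fun y => by
        rw [map_inv, Equiv.Perm.inv_eq_iff_eq]; simp [Phi]⟩
    | mul a b ha hb =>
      intro q
      obtain ⟨k, hk⟩ := hb q
      obtain ⟨k', hk'⟩ := ha (p0 b * q)
      exact ⟨k + k', fun y => by
        rw [map_mul, Equiv.Perm.mul_apply, hk, hk', map_mul, mul_assoc, add_assoc]⟩
  obtain ⟨k, hk⟩ := this q
  rw [CC, hk, hk, zero_add]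

lemma CC_mul (ε : Q → Fin 3 → Y) (u v : F3) (q : Q) :
    CC ε (u * v) q = CC ε v q + CC ε u (p0 v * q) := by
  rw [CC, map_mul, Equiv.Perm.mul_apply, Phi_apply, Phi_apply, zero_add]

lemma CC_of (ε : Q → Fin 3 → Y) (i : Fin 3) (q : Q) : CC ε (of i) q = ε q i := by simp [CC, Phi]

lemma CC_inv (ε : Q → Fin 3 → Y) (u : F3) (q : Q) : CC ε u⁻¹ q = -CC ε u ((p0 u)⁻¹ * q) := by
  have := CC_mul ε u u⁻¹ q
  rw [mul_inv_cancel, map_inv] at this
  exact eq_neg_of_add_eq_zero_left (this.symm.trans (by simp [CC]))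

lemma CC_uniq (C : F3 → Q → Y) (h : ∀ u v q, C (u * v) q = C v q + C u (p0 v * q)) (u : F3) :
    ∀ q, C u q = CC (fun q i => C (of i) q) u q := by
  have h1 : ∀ q, C 1 q = 0 := fun q => by simpa using h 1 1 q
  induction u using FreeGroup.induction_on with
  | C1 => intro q; simp [h1, CC]
  | of i => intro q; rw [CC_of]
  | inv_of i _ =>
    intro q
    have := h (of i) (of i)⁻¹ q
    rw [mul_inv_cancel, h1, map_inv] at this
    rw [CC_inv, CC_of]
    exact eq_neg_of_add_eq_zero_left this.symm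
  | mul a b ha hb => intro q; rw [h, CC_mul, ha, hb]

end

abbrev Z := Q × Fin 3 → ℤ
abbrev Y := (Q → ℤ × ℤ × ℤ) × ℤ

def de (q : Q) (i : Fin 3) : Z := Pi.single (q, i) 1

lemma CC_map {Y : Type} [AddCommGroup Y] (T : Z →+ Y) (u : F3) (q : Q) :
    T (CC de u q) = CC (fun q i => T (de q i)) u q := by
  simpa only [CC_of] using CC_uniq (fun u q => T (CC de u q))
    (fun u v q => by rw [CC_mul, map_add]) u q

def LL : Z →+ Y := AddMonoidHom.mk' (fun z =>
    (fun q => (z (sr 0 * q, 0) - z (q, 0), z (r 1 * q, 1) - z (q, 1), z (q, 2) - z (q, 1)),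
      z (r 0, 0) + z (r 1, 0) + z (r 2, 0) - z (r 0, 1) - z (sr 0, 1)))
  fun a b => by ext <;> simp <;> ring

lemma p0_rel : p0 rel = 1 := by
  simp only [rel, map_mul, map_pow, p0_of]; decide

def dr (q : Q) : Z := fun p => if p.2 = 0 then (if p.1 = q ∨ p.1 = sr 0 * q then 1 else 0) else
  if p.1 = q ∨ p.1 = r 1 * q ∨ p.1 = r 2 * q then 1 else 0

lemma CC_rel (q : Q) : CC de rel q = dr q := by
  simp only [rel, pow_succ, pow_zero, one_mul, CC_mul, CC_of, map_mul, p0_of]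
  revert q
  decide +kernel

lemma LL_dr (q : Q) : LL (dr q) = 0 := by
  revert q
  decide +kernel

lemma LL_ker (z : Z) (h : LL z = 0) : z = z (r 0, 1) • dr (r 0) +
    (z (r 0, 0) - z (r 0, 1)) • dr (sr 0) + z (r 1, 0) • dr (sr 1) + z (r 2, 0) • dr (sr 2) := by
  have h1 : ∀ q, z (sr 0 * q, 0) - z (q, 0) = 0 := fun q => congrArg (fun y : Y => (y.1 q).1) h
  have h2 : ∀ q, z (r 1 * q, 1) - z (q, 1) = 0 := fun q => congrArg (fun y : Y => (y.1 q).2.1) h
  have h3 : ∀ q, z (q, 2) - z (q, 1) = 0 := fun q => congrArg (fun y : Y => (y.1 q).2.2) h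
  have h4 : z (r 0, 0) + z (r 1, 0) + z (r 2, 0) - z (r 0, 1) - z (sr 0, 1) = 0 :=
    congrArg (fun y : Y => y.2) h
  have a0 : z (sr 0, 0) - z (r 0, 0) = 0 := h1 (r 0)
  have a1 : z (sr 1, 0) - z (r 1, 0) = 0 := h1 (r 1)
  have a2 : z (sr 2, 0) - z (r 2, 0) = 0 := h1 (r 2)
  have b0 : z (r 1, 1) - z (r 0, 1) = 0 := h2 (r 0)
  have b1 : z (r 2, 1) - z (r 1, 1) = 0 := h2 (r 1)
  have b2 : z (sr 0, 1) - z (sr 1, 1) = 0 := h2 (sr 1)
  have b3 : z (sr 1, 1) - z (sr 2, 1) = 0 := h2 (sr 2)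
  have c0 := h3 (r 0)
  have c1 := h3 (r 1)
  have c2 := h3 (r 2)
  have c3 := h3 (sr 0)
  have c4 := h3 (sr 1)
  have c5 := h3 (sr 2)
  have hq : ∀ q : Q, q = r 0 ∨ q = r 1 ∨ q = r 2 ∨ q = sr 0 ∨ q = sr 1 ∨ q = sr 2 := by decide
  have hi : ∀ i : Fin 3, i = 0 ∨ i = 1 ∨ i = 2 := by decide
  ext ⟨q, i⟩
  rcases hq q with rfl | rfl | rfl | rfl | rfl | rfl <;> rcases hi i with rfl | rfl | rfl <;>
    simp +decide only [dr, Pi.add_apply, Pi.smul_apply, smul_eq_mul, if_true, if_false] <;> omega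

def pq : P →* Q := PresentedGroup.toGroup (f := gq) (by rintro _ rfl; exact p0_rel)

lemma pq_mk (u : F3) : pq (PresentedGroup.mk _ u) = p0 u := rfl

abbrev NN : Subgroup P := pq.ker

def tt : Q → P
  | r i => PresentedGroup.of 1 ^ i.val
  | sr i => PresentedGroup.of 0 * PresentedGroup.of 1 ^ i.val

lemma pq_tt (q : Q) : pq (tt q) = q := by
  cases q <;> simp [tt, pq, gq]

def ee (u : F3) (q : Q) : Additive (Abelianization NN) :=
  Additive.ofMul (Abelianization.of ⟨(tt (p0 u * q))⁻¹ * PresentedGroup.mk _ u * tt q, by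
    simp [MonoidHom.mem_ker, pq_tt, pq_mk]⟩)

def ps : Z →+ Additive (Abelianization NN) :=
  AddMonoidHom.mk' (fun z => ∑ p, z p • ee (of p.2) p.1) fun a b => by
    simp [add_smul, Finset.sum_add_distrib]

lemma ps_CC (u : F3) (q : Q) : ps (CC de u q) = ee u q := by
  rw [CC_map, CC_uniq ee (fun u v q => by
    simp only [ee]
    rw [add_comm, ← ofMul_mul, ← map_mul]
    congr 2
    ext
    simp [mul_assoc])]
  congr 1
  funext q i
  simp [ps, de, Pi.single_apply]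

lemma ps_ker (z : Z) (h : LL z = 0) : ps z = 0 := by
  have : ∀ q, ps (dr q) = 0 := fun q => by
    rw [← CC_rel, ps_CC]
    simp only [ee, ofMul_eq_zero]
    rw [← map_one Abelianization.of]
    congr 1
    ext
    simp [p0_rel, PresentedGroup.one_of_mem (rels := {rel}) rfl]
  rw [LL_ker z h]
  simp only [map_add, map_zsmul, this, smul_zero, add_zero]

def Ph : P →* Equiv.Perm (Q × Y) :=
  PresentedGroup.toGroup (f := fun i => Phi (fun q i => LL (de q i)) (of i)) (by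
    rintro _ rfl
    have e : lift (fun i => Phi (fun q i => LL (de q i)) (of i)) = Phi fun q i => LL (de q i) :=
      FreeGroup.ext_hom _ _ fun i => by simp
    rw [e]
    ext1 ⟨q, y⟩
    simp [Phi_apply, ← CC_map, CC_rel, LL_dr, p0_rel])

lemma Ph_mk (u : F3) (q : Q) (y : Y) :
    Ph (PresentedGroup.mk _ u) (q, y) = (p0 u * q, y + LL (CC de u q)) := by
  rw [CC_map, ← Phi_apply]
  exact DFunLike.congr_fun (DFunLike.congr_fun (FreeGroup.ext_hom (Ph.comp (PresentedGroup.mk _))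
    (Phi fun q i => LL (de q i)) fun i => by
      change Ph (PresentedGroup.of i) = _
      simp [Ph]) u) _

def chi : NN →* Multiplicative Y :=
  MonoidHom.mk' (fun n => Multiplicative.ofAdd (Ph n.1 (1, 0)).2) fun a b => by
    obtain ⟨a, ha⟩ := a
    obtain ⟨b, hb⟩ := b
    obtain ⟨u, rfl⟩ := PresentedGroup.mk_surjective _ a
    obtain ⟨v, rfl⟩ := PresentedGroup.mk_surjective _ b
    have hv : p0 v = 1 := hb
    simp [Ph_mk, hv, ← ofAdd_add, add_comm]

lemma ab_one (u : F3) (hu : PresentedGroup.mk _ u ∈ NN) (h : LL (CC de u 1) = 0) :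
    Abelianization.of (⟨_, hu⟩ : NN) = 1 := by
  have := ps_ker _ h
  rw [ps_CC] at this
  have hu' : p0 u = 1 := hu
  have e : tt 1 = 1 := pow_zero _
  simpa [ee, hu', e] using this

theorem tf (x : Abelianization NN) (h : IsOfFinOrder x) : x = 1 := by
  obtain ⟨⟨p, hp⟩, rfl⟩ := QuotientGroup.mk_surjective x
  obtain ⟨u, rfl⟩ := PresentedGroup.mk_surjective _ p
  refine ab_one u hp ?_
  obtain ⟨m, hm, e⟩ := isOfFinOrder_iff_pow_eq_one.1 ((Abelianization.lift chi).isOfFinOrder h)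
  have e2 : m • (Ph (PresentedGroup.mk _ u) (1, 0)).2 = 0 := congrArg Multiplicative.toAdd e
  rw [Ph_mk, zero_add] at e2
  exact (smul_eq_zero.1 e2).resolve_left hm.ne'

def tau : F3 := of 1 * of 2 * (of 0 * of 1 * of 2 * (of 0)⁻¹)⁻¹

theorem tors : ∃ g : P ⧸ ⁅NN, NN⁆, g ≠ 1 ∧ IsOfFinOrder g := by
  refine ⟨QuotientGroup.mk (PresentedGroup.mk _ tau), fun h => ?_,
    isOfFinOrder_iff_pow_eq_one.2 ⟨3, by omega, ?_⟩⟩
  · have h1 : p0 tau = 1 := Subgroup.commutator_le_left _ _ ((QuotientGroup.eq_one_iff _).1 h)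
    simp only [tau, map_mul, map_inv, p0_of] at h1
    exact absurd h1 (by decide)
  · have h1 : PresentedGroup.mk _ (tau ^ 3) ∈ NN := by
      rw [MonoidHom.mem_ker, pq_mk]
      simp only [tau, map_mul, map_inv, map_pow, p0_of]
      decide
    have h2 := ab_one _ h1 (by
      simp only [tau, pow_succ, pow_zero, one_mul, CC_mul, CC_inv, CC_of, map_mul, map_inv, p0_of]
      decide +kernel)
    rw [← QuotientGroup.mk_pow, QuotientGroup.eq_one_iff, ← map_pow]
    have h3 : (⟨_, h1⟩ : NN) ∈ commutator NN := (QuotientGroup.eq_one_iff _).1 h2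
    have h4 := Subgroup.mem_map_of_mem NN.subtype h3
    rwa [commutator, Subgroup.map_commutator, ← MonoidHom.range_eq_map, Subgroup.range_subtype] at h4

end Pool.Agent.H.MP_66ce2c_al
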